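import Pool.Agent.KS6_2.MT.Fn

/-! # MP_2a9801_co (Q1, negated form): toric ideals of matching polytopes need generators of
arbitrarily large degree, already for connected graphs of maximum degree three

`IsMat G M` says that `M` is a matching of `G` (a finite set of pairwise disjoint edges),
`IsPerf G M` that it is a perfect matching, and `toricIdeal K P` is the kernel of the `K`-algebra
map `x_M ↦ (∏_{e ∈ M} t_e) s` on the polynomial ring whose variables `x_M` are indexed by the sets
of edges with property `P`. So `toricIdeal K (IsMat G)` is `I_{M_G}` and `toricIdeal K (IsPerf G)`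
is `I_{P_G}`.

For every `k ≥ 3` there is a connected graph `G` with `6 k - 2` vertices, all of degree at most
three, such that over every field every set of generators of `I_{M_G}` contains an element of
degree at least `k`, and `I_{P_G}` is a principal ideal generated by a form of degree exactly `k`.
-/

namespace Pool.Agent.Results.MP_2a9801_co.UnboundedDegrees

open Pool.Agent.KS6_2.MT MvPolynomial

universe u

theorem result (k : ℕ) (hk : 3 ≤ k) :
    ∃ (V : Type) (_ : Fintype V) (G : SimpleGraph V),
      Fintype.card V = 6 * k - 2 ∧ G.Connected ∧ (∀ v, (G.neighborSet v).ncard ≤ 3) ∧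
      ∀ (K : Type u) [Field K],
        (∀ S : Set (MvPolynomial {M : Finset (Sym2 V) // IsMat G M} K),
          Ideal.span S = toricIdeal K (IsMat G) → ∃ f ∈ S, k ≤ f.totalDegree) ∧
        ∃ f : MvPolynomial {M : Finset (Sym2 V) // IsPerf G M} K,
          f ≠ 0 ∧ f.IsHomogeneous k ∧ toricIdeal K (IsPerf G) = Ideal.span {f} := by
  obtain ⟨n, rfl⟩ := Nat.exists_eq_add_of_le' hk
  exact ⟨V n, inferInstance, Gr n, card_V, connected, degree_le, fun K _ =>
    ⟨fun S hS => deg_mat K S hS, perf_principal K⟩⟩

end Pool.Agent.Results.MP_2a9801_co.UnboundedDegrees
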